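import Pool.Agent.TH882.D5

/-!
A positive proportion of the integers `N` are sums `N = p + q` of two primes which both start the
same pattern of primes `p, p + h` (`h ∈ D`), `D` a set of `m` positive integers bounded in terms of
`m`, with almost prime shifts.
-/

set_option autoImplicit false

open Finset Filter Topology

namespace Pool.Agent.Results.MP_c6d112_nt.CommonPattern

/-- For every prime `l` there is an `r` such that `l` divides neither `r` nor any `r + a`,
`a ∈ S`. -/
def Admissible (S : Finset ℤ) : Prop := ∀ l : ℕ, l.Prime → ∃ r : ℤ,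
  ¬ (l : ℤ) ∣ r ∧ ∀ a ∈ S, ¬ (l : ℤ) ∣ r + a

/-- All `q + a`, `a ∈ S`, are positive with at most `r` prime factors (with multiplicity). -/
def AlmostPrimeShifts (S : Finset ℤ) (r q : ℕ) : Prop :=
  ∀ a ∈ S, 0 < (q : ℤ) + a ∧ ArithmeticFunction.cardFactors ((q : ℤ) + a).toNat ≤ r

/-- `p` and all `p + h`, `h ∈ D`, are primes with almost prime shifts. -/
def StartsPattern (S : Finset ℤ) (r : ℕ) (D : Finset ℕ) (p : ℕ) : Prop :=
  ∀ h ∈ insert 0 D, (p + h).Prime ∧ AlmostPrimeShifts S r (p + h)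

open Classical in
/-- The representations `N = p + (N - p)` with both `p` and `N - p` starting the pattern `D`. -/
noncomputable def representations (S : Finset ℤ) (r : ℕ) (D : Finset ℕ) (N : ℕ) : Finset ℕ :=
  (range N).filter (fun p => StartsPattern S r D p ∧ StartsPattern S r D (N - p))

open Classical in
/-- The integers `N < x` with at least `N / (log N) ^ E` representations. -/
noncomputable def good (S : Finset ℤ) (r : ℕ) (D : Finset ℕ) (E x : ℕ) : Finset ℕ :=
  (range x).filter (fun N => (N : ℝ) / Real.log N ^ E ≤ ((representations S r D N).card : ℝ))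

theorem result : ∀ S : Finset ℤ, Admissible S → ∀ m : ℕ, ∃ r C E : ℕ, ∃ c : ℝ, 0 < c ∧
    (∀ᶠ x : ℕ in atTop, ∃ D : Finset ℕ, D ⊆ Icc 1 C ∧ D.card = m ∧
      c * x ≤ ((good S r D E x).card : ℝ)) ∧
    (∃ D : Finset ℕ, D ⊆ Icc 1 C ∧ D.card = m ∧
      ∃ᶠ x : ℕ in atTop, c * x ≤ ((good S r D E x).card : ℝ)) := by
  classical
  intro S hS m
  obtain ⟨r, C, E, c, hc, x₀, h⟩ := Pool.Agent.TH882.DD.fin S hS m
  have h1 : ∀ᶠ x : ℕ in atTop, ∃ D : Finset ℕ, D ⊆ Icc 1 C ∧ D.card = m ∧
      c * x ≤ ((good S r D E x).card : ℝ) := by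
    rw [eventually_atTop]
    refine ⟨x₀, fun x hx => ?_⟩
    obtain ⟨D, hD1, hD2, hD3⟩ := h x hx
    refine ⟨D, hD1, hD2, hD3.trans ?_⟩
    apply Nat.cast_le.2
    apply card_le_card
    intro N hN
    rw [mem_filter] at hN
    unfold good
    rw [mem_filter]
    exact hN
  refine ⟨r, C, E, c, hc, h1, ?_⟩
  by_contra hcon
  push Not at hcon
  have h2 : ∀ D ∈ (Icc 1 C).powerset.filter (fun D => D.card = m),
      ∀ᶠ x : ℕ in atTop, ¬ c * x ≤ ((good S r D E x).card : ℝ) := by
    intro D hD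
    rw [mem_filter, mem_powerset] at hD
    have h3 := hcon D hD.1 hD.2
    filter_upwards [h3] with x hx
    exact not_le.2 hx
  have h3 := (Filter.eventually_all_finset _).2 h2
  obtain ⟨x, hx1, hx2⟩ := (h1.and h3).exists
  obtain ⟨D, hD1, hD2, hD3⟩ := hx1
  exact hx2 D (mem_filter.2 ⟨mem_powerset.2 hD1, hD2⟩) hD3

end Pool.Agent.Results.MP_c6d112_nt.CommonPattern
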