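import Pool.Agent.TH882.T4

/-!
Sums of two members of prime tuples: for all but a proportion `κ` of the data
`(N, a_1, ..., a_r, b_1, ..., b_s)` without local obstruction there are at least
`c x / (log x) ^ (r + s + 2)` primes `p ≤ x` without other primes at distance at most `L log x` such
that, with `q = N - p`, all the numbers `p`, `p + a_i`, `q`, `q + b_j` are prime.
-/

set_option autoImplicit false

open Finset Filter Topology Polynomial

namespace Pool.Agent.Results.MP_c6d112_nt.SumsOfTuplesIsolated

/-- The only prime at distance at most `R` from `p` is `p` itself (if it is one). -/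
def Isolated (R : ℝ) (p : ℕ) : Prop := ∀ q : ℕ, q.Prime → |(q : ℝ) - p| ≤ R → q = p

/-- For every prime `l` there is an integer `n` such that `l` divides none of the numbers `n`,
`n + a_i`, `N - n`, `N - n + b_j`. -/
def LocallyPossible {r s : ℕ} (N : ℕ) (a : Fin r → ℕ) (b : Fin s → ℕ) : Prop :=
  ∀ l : ℕ, l.Prime → ∃ n : ℤ, ¬ (l : ℤ) ∣ n ∧ (∀ i, ¬ (l : ℤ) ∣ n + a i) ∧ ¬ (l : ℤ) ∣ N - n ∧
    ∀ j, ¬ (l : ℤ) ∣ N - n + b j

open Classical in
/-- The primes `p ≤ x` without other primes at distance at most `L * log x` such that all `p + a_i`,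
`N - p` (in particular `p < N`) and `N - p + b_j` are prime. -/
noncomputable def representations {r s : ℕ} (L : ℝ) (N : ℕ) (a : Fin r → ℕ) (b : Fin s → ℕ)
    (x : ℕ) : Finset ℕ :=
  (Icc 1 x).filter (fun p => p.Prime ∧ Isolated (L * Real.log x) p ∧ (∀ i, (p + a i).Prime) ∧
    (N - p).Prime ∧ ∀ j, (N - p + b j).Prime)

open Classical in
/-- The locally possible data up to `K x` with few representations. -/
noncomputable def exceptions (r s : ℕ) (L c : ℝ) (K x : ℕ) :
    Finset (ℕ × (Fin r → ℕ) × (Fin s → ℕ)) :=
  (Icc 1 (K * x) ×ˢ Fintype.piFinset (fun _ : Fin r => Icc 1 (K * x)) ×ˢ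
    Fintype.piFinset (fun _ : Fin s => Icc 1 (K * x))).filter (fun d =>
    LocallyPossible d.1 d.2.1 d.2.2 ∧
    ((representations L d.1 d.2.1 d.2.2 x).card : ℝ) < c * (x / Real.log x ^ (r + s + 2)))

theorem result (r s : ℕ) (L : ℝ) (K : ℕ) (κ : ℝ) (hκ : 0 < κ) :
    (∃ c : ℝ, 0 < c ∧ ∃ x₀ : ℕ, ∀ x : ℕ, x₀ ≤ x →
      ((exceptions r s L c K x).card : ℝ) ≤ κ * (x : ℝ) ^ (r + s + 1)) ∧
    ∀ N a b : ℕ, Even N → 6 ∣ a → 6 ∣ b →
      LocallyPossible N (fun _ : Fin 1 => a) (fun _ : Fin 1 => b) := by
  classical
  constructor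
  · set σ : Fin (1 + r + s) → ℤ :=
      Fin.append (Fin.append (fun _ : Fin 1 => (-1 : ℤ)) (fun _ : Fin r => (1 : ℤ)))
        (fun _ : Fin s => (-1 : ℤ)) with hσd
    have hσ : ∀ j, σ j = 1 ∨ σ j = -1 := by
      intro j
      refine Fin.addCases (fun i => ?_) (fun i => ?_) j
      · refine Fin.addCases (fun i => ?_) (fun i => ?_) i
        · right
          simp [hσd]
        · left
          simp [hσd]
      · right
        simp [hσd]
    obtain ⟨c, hc, x₀, h⟩ := Pool.Agent.TH882.TS.iso_mainM σ hσ (fun _ => (X : ℤ[X]))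
      (fun _ => by simp) (fun _ => by simp) L (2 * K) κ hκ
    refine ⟨c, hc, x₀, fun x hx => ?_⟩
    have h1 := h x hx
    have e0 : ∏ j : Fin (1 + r + s), (x : ℝ) ^ ((fun _ => (X : ℤ[X])) j).natDegree =
        (x : ℝ) ^ (r + s + 1) := by
      simp only [natDegree_X, pow_one, prod_const, card_univ, Fintype.card_fin]
      congr 1
      omega
    rw [e0] at h1
    set f : ℕ × (Fin r → ℕ) × (Fin s → ℕ) → (Fin (1 + r + s) → ℕ) := fun d =>
      Fin.append (Fin.append (fun _ : Fin 1 => d.1) d.2.1) (fun j => d.1 + d.2.2 j) with hf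
    refine le_trans (Pool.Agent.TH882.TS.tr_excM _ σ _ c (2 * K) x _ f ?_
      (fun d => representations L d.1 d.2.1 d.2.2 x) ?_ ?_ ?_ ?_) h1
    · rintro ⟨N, a, b⟩ _ ⟨N', a', b'⟩ _ he
      have e1 : N = N' := by
        have := congrFun he (Fin.castAdd s (Fin.castAdd r (0 : Fin 1)))
        simpa [hf] using this
      have e2 : a = a' := by
        funext i
        have := congrFun he (Fin.castAdd s (Fin.natAdd 1 i))
        simpa [hf] using this
      have e3 : b = b' := by
        funext i
        have := congrFun he (Fin.natAdd (1 + r) i)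
        simp [hf] at this
        omega
      rw [e1, e2, e3]
    · intro d hd j
      unfold exceptions at hd
      rw [mem_filter, mem_product, mem_product, Fintype.mem_piFinset, Fintype.mem_piFinset] at hd
      obtain ⟨⟨g1, g2, g3⟩, -⟩ := hd
      simp only [natDegree_X, pow_one]
      rw [mem_Icc] at g1
      have e5 : 2 * K * x = K * x + K * x := by ring
      refine Fin.addCases (fun i => ?_) (fun i => ?_) j
      · refine Fin.addCases (fun i => ?_) (fun i => ?_) i
        · simp only [hf, Fin.append_left]
          rw [mem_Icc]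
          constructor <;> omega
        · simp only [hf, Fin.append_left, Fin.append_right]
          have g4 := mem_Icc.1 (g2 i)
          rw [mem_Icc]
          constructor <;> omega
      · simp only [hf, Fin.append_right]
        have g4 := mem_Icc.1 (g3 i)
        rw [mem_Icc]
        constructor <;> omega
    · intro d hd l hlp
      unfold exceptions at hd
      rw [mem_filter] at hd
      obtain ⟨n, n1, n2, n3, n4⟩ := hd.2.1 l hlp
      refine ⟨n, n1, fun j => ?_⟩
      rw [eval_X]
      refine Fin.addCases (fun i => ?_) (fun i => ?_) j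
      · refine Fin.addCases (fun i => ?_) (fun i => ?_) i
        · simp only [hf, hσd, Fin.append_left]
          intro hdv
          apply n3
          have e1 : (d.1 : ℤ) + -1 * n = d.1 - n := by ring
          rwa [e1] at hdv
        · simp only [hf, hσd, Fin.append_left, Fin.append_right]
          intro hdv
          apply n2 i
          rwa [one_mul, add_comm] at hdv
      · simp only [hf, hσd, Fin.append_right]
        intro hdv
        apply n4 i
        have e1 : ((d.1 + d.2.2 i : ℕ) : ℤ) + -1 * n = d.1 - n + d.2.2 i := by push_cast; ring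
        rwa [e1] at hdv
    · intro d hd
      unfold exceptions at hd
      rw [mem_filter] at hd
      have e1 : 1 + r + s + 1 = r + s + 2 := by omega
      rw [e1]
      exact hd.2.2
    · intro d hd n hn1 hn2 hn3 hn4
      unfold representations
      rw [mem_filter]
      have v1 : (d.1 - n).Prime := by
        have := hn4 (Fin.castAdd s (Fin.castAdd r (0 : Fin 1)))
        simp only [hf, hσd, Fin.append_left, eval_X] at this
        have e1 : ((d.1 : ℤ) + -1 * (n : ℤ)).toNat = d.1 - n := by omega
        rwa [e1] at this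
      have hlt : n < d.1 := by
        have := v1.pos
        omega
      refine ⟨hn1, hn2, hn3, fun i => ?_, v1, fun i => ?_⟩
      · have := hn4 (Fin.castAdd s (Fin.natAdd 1 i))
        simp only [hf, hσd, Fin.append_left, Fin.append_right, eval_X] at this
        have e1 : ((d.2.1 i : ℤ) + 1 * (n : ℤ)).toNat = n + d.2.1 i := by omega
        rwa [e1] at this
      · have := hn4 (Fin.natAdd (1 + r) i)
        simp only [hf, hσd, Fin.append_right, eval_X] at this
        have e1 : (((d.1 + d.2.2 i : ℕ) : ℤ) + -1 * (n : ℤ)).toNat = d.1 - n + d.2.2 i := by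
          omega
        rwa [e1] at this
  · intro N a b hN ha hb l hlp
    rw [Nat.even_iff] at hN
    rcases Nat.lt_or_ge l 5 with h6 | h6
    · have hl2 := hlp.two_le
      have hl4 : l ≠ 4 := by
        rintro rfl
        exact absurd hlp (by norm_num)
      have h7 : l = 2 ∨ l = 3 := by omega
      rcases h7 with rfl | rfl
      · refine ⟨1, by norm_num, fun _ => ?_, ?_, fun _ => ?_⟩ <;> push_cast <;> omega
      · by_cases h8 : N % 3 = 1
        · refine ⟨2, by norm_num, fun _ => ?_, ?_, fun _ => ?_⟩ <;> push_cast <;> omega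
        · refine ⟨1, by norm_num, fun _ => ?_, ?_, fun _ => ?_⟩ <;> push_cast <;> omega
    · obtain ⟨n, n1, n2⟩ := Pool.Agent.TH882.TS.wit (![1, -1, -1] : Fin 3 → ℤ)
        (by
          intro j
          fin_cases j
          · exact Or.inl rfl
          · exact Or.inr rfl
          · exact Or.inr rfl) (fun _ => (X : ℤ[X])) (fun _ => by simp) l hlp
        (fun _ hd => by
          rw [leadingCoeff_X] at hd
          have := Int.le_of_dvd one_pos hd
          omega) (by simp; omega) ![a, N, N + b]
      refine ⟨n, n1, fun _ hd => n2 0 ?_, fun hd => n2 1 ?_, fun _ hd => n2 2 ?_⟩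
      · show (l : ℤ) ∣ (a : ℤ) + 1 * eval n X
        rw [eval_X, one_mul, add_comm]
        exact hd
      · show (l : ℤ) ∣ (N : ℤ) + -1 * eval n X
        have e1 : (N : ℤ) + -1 * n = N - n := by ring
        rw [eval_X, e1]
        exact hd
      · show (l : ℤ) ∣ ((N + b : ℕ) : ℤ) + -1 * eval n X
        have e1 : ((N + b : ℕ) : ℤ) + -1 * n = N - n + b := by push_cast; ring
        rw [eval_X, e1]
        exact hd

end Pool.Agent.Results.MP_c6d112_nt.SumsOfTuplesIsolated
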