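import Mathlib
import Pool.Agent.TH899.UG.TTE

/-!
# Three binary equations in bounded-gap twin primes for every large `N`, without exceptional set

For every `m` and every large `N` one of the three equations `p + q = 2 N + c`, `2 p - q = N + c`,
`2 p + q = 3 N + c` with `|c| ≤ C` has at least `N ^ (1 - η)` solutions in primes `p`, `q` both of which
have `m` primes at distance at most `C` (for `m = 2`: both `p` and `q` are twin primes with the gap `2`
replaced by a bounded one).

Proof: the coloured Maynard-Tao theorem above one quarter for linear forms, with many classes for each of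
the four slopes `1, -1, 2, -2`.
-/

set_option autoImplicit false

namespace Pool.Agent.Results.MP_c6d112_nt.ThreeTwinEquations

open Filter

/-- `p` is a prime and at least `m` primes, `p` itself counted, are at distance at most `C` from `p` -/
def Near (m C p : ℕ) : Prop := p.Prime ∧ m ≤ {x : ℕ | x.Prime ∧ |(x : ℤ) - p| ≤ C}.ncard

theorem result (m : ℕ) (hm : 1 ≤ m) : ∃ C : ℕ, ∀ η : ℝ, 0 < η → ∀ᶠ N : ℕ in atTop,
    ∃ a ∈ ({(1, 1, 2), (2, -1, 1), (2, 1, 3)} : Set (ℤ × ℤ × ℤ)), ∃ c : ℤ, |c| ≤ C ∧
      (N : ℝ) ^ (1 - η) ≤ ({p : ℕ | p ≤ 2 * N ∧ Near m C p ∧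
        ∃ q : ℕ, Near m C q ∧ a.1 * (p : ℤ) + a.2.1 * (q : ℤ) = a.2.2 * (N : ℤ) + c}.ncard : ℝ) :=
  Pool.Agent.TH899.UG.Pair4.tte m hm

end Pool.Agent.Results.MP_c6d112_nt.ThreeTwinEquations
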