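import Pool.Agent.TH685.TI.TwinB
import Pool.Agent.TH685.TI.Sum2

set_option autoImplicit false
set_option maxHeartbeats 1000000

/-! # The typical size of the least summand in sums of two (almost) twin primes -/

namespace Pool.Agent.Results.MP_c6d112_nt.TypicalLeastSummand

open Finset Filter Pool.Agent.TH685.TI
open Pool.Agent.Results.MP_3509fd_nt.NeighboursOfAlmostMissing (AlmostMissing)

/-- `s` has at most `r` prime factors (counted with multiplicity), and each prime factor `l` of `s`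
satisfies `l ^ r > p`. -/
def Rough (r p s : ℕ) : Prop :=
  s.primeFactorsList.length ≤ r ∧ ∀ l : ℕ, l.Prime → l ∣ s → p < l ^ r

/-- `p` is prime and one of `p + 2`, `p - 2` has at most `r` prime factors, all of them large. -/
def AlmostTwin (r p : ℕ) : Prop := p.Prime ∧ (Rough r p (p + 2) ∨ Rough r p (p - 2))

theorem rough_prime (r p s : ℕ) (hr : 2 ≤ r) (hs : s.Prime) (hps : p < s ^ 2) : Rough r p s := by
  refine ⟨?_, ?_⟩
  · rw [Nat.primeFactorsList_prime hs]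
    show 1 ≤ r
    omega
  · intro l hl hd
    have e := (Nat.prime_dvd_prime_iff_eq hl hs).1 hd
    rw [e]
    exact lt_of_lt_of_le hps (Nat.pow_le_pow_right hs.pos hr)

theorem twin_at (r p : ℕ) (hr : 2 ≤ r) (hp : p.Prime) (h : (p + 2).Prime ∨ (p - 2).Prime) :
    AlmostTwin r p := by
  refine ⟨hp, ?_⟩
  rcases h with h | h
  · left
    apply rough_prime r p _ hr h
    nlinarith
  · right
    apply rough_prime r p _ hr h
    have h2 := h.two_le
    obtain ⟨s, hs⟩ : ∃ s, s = p - 2 := ⟨_, rfl⟩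
    have e : p = s + 2 := by omega
    rw [← hs] at h h2 ⊢
    rcases Nat.eq_or_lt_of_le h2 with h3 | h3
    · exfalso
      rw [e, ← h3] at hp
      exact absurd hp (by norm_num)
    · rw [e]
      nlinarith

theorem rough_of_missing (r X k : ℕ) (hr : 1 ≤ r) (hX : 12 ≤ X) (hk : 1 ≤ k) (hkX : k ≤ 2 * X)
    (h : AlmostMissing r X k) : AlmostTwin (2 * r) (6 * k - 1) := by
  obtain ⟨h1, h2, h3⟩ := h
  have e : 6 * k - 1 + 2 = 6 * k + 1 := by omega
  refine ⟨h1, Or.inl ⟨?_, ?_⟩⟩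
  · rw [e]
    omega
  · intro p hp hd
    rw [e] at hd
    have h4 := h3 p hp hd
    have hrpos : (0 : ℝ) < r := by exact_mod_cast hr
    have h5 : (X : ℝ) < (p : ℝ) ^ r := by
      calc (X : ℝ) = ((X : ℝ) ^ (1 / (r : ℝ))) ^ r := by
            rw [← Real.rpow_natCast, ← Real.rpow_mul (by positivity), one_div,
              inv_mul_cancel₀ hrpos.ne', Real.rpow_one]
        _ < (p : ℝ) ^ r := pow_lt_pow_left₀ h4 (by positivity) (by omega)
    have h6 : X < p ^ r := by exact_mod_cast h5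
    have h7 : p ^ (2 * r) = p ^ r * p ^ r := by ring
    rw [h7]
    have h8 : 12 * p ^ r ≤ p ^ r * p ^ r := Nat.mul_le_mul_right _ (by omega)
    omega

open Classical in
theorem at_large (r : ℕ) (hr : 1 ≤ r) : ∃ c : ℝ, 0 < c ∧ ∀ q : ℕ, ∀ T : Finset ℕ,
    (∀ p ∈ T, p < q ∧ AlmostTwin r p) → ∀ Z : ℝ, 3 ≤ Z → Z < T.card →
    c * (Z * Real.log Z ^ 2) < q := by
  obtain ⟨C, hC, X₀, hX₀, hs⟩ := at_interval r hr
  obtain ⟨lam, hlam⟩ : ∃ lam : ℝ, lam = Real.log X₀ ^ 2 := ⟨_, rfl⟩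
  have hX3 : (3 : ℝ) ≤ X₀ := by exact_mod_cast hX₀
  have hlX : 0 < Real.log X₀ := Real.log_pos (by linarith)
  have hlam0 : 0 < lam := by rw [hlam]; positivity
  refine ⟨min (1 / C) (1 / lam), by positivity, fun q T hT Z hZ hZT => ?_⟩
  have h1 : T.card ≤ ((Ioc 0 (0 + q)).filter (At r)).card := by
    apply card_le_card
    intro p hp
    obtain ⟨h2, h3⟩ := hT p hp
    rw [mem_filter, mem_Ioc]
    exact ⟨⟨h3.1.pos, by omega⟩, h3⟩
  have h2 : T.card ≤ q := by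
    refine h1.trans ((card_filter_le _ _).trans ?_)
    rw [Nat.card_Ioc]
    omega
  have h2' : (T.card : ℝ) ≤ q := by exact_mod_cast h2
  have hZq : Z < q := lt_of_lt_of_le hZT h2'
  have hlZ : 0 < Real.log Z := Real.log_pos (by linarith)
  have hlZq : Real.log Z ≤ Real.log q := Real.log_le_log (by linarith) hZq.le
  have hZ2 : 0 ≤ Z * Real.log Z ^ 2 := by positivity
  rcases Nat.lt_or_ge q X₀ with h3 | h3
  · have h4 : (q : ℝ) ≤ X₀ := by exact_mod_cast h3.le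
    have h5 : Real.log Z ≤ Real.log X₀ := hlZq.trans (Real.log_le_log (by linarith) h4)
    have h6 : Real.log Z ^ 2 ≤ lam := by
      rw [hlam]
      exact pow_le_pow_left₀ hlZ.le h5 2
    calc min (1 / C) (1 / lam) * (Z * Real.log Z ^ 2) ≤ 1 / lam * (Z * Real.log Z ^ 2) :=
          mul_le_mul_of_nonneg_right (min_le_right _ _) hZ2
      _ ≤ 1 / lam * (Z * lam) := by gcongr
      _ = Z := by field_simp
      _ < q := hZq
  · have h4 := hs q h3 0
    have h1' : (T.card : ℝ) ≤ (((Ioc 0 (0 + q)).filter (At r)).card : ℝ) := by exact_mod_cast h1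
    have h5 : Z < C * (q / Real.log q ^ 2) := lt_of_lt_of_le hZT (h1'.trans h4)
    have hlq : 0 < Real.log q := by linarith
    rw [← mul_div_assoc, lt_div_iff₀ (by positivity)] at h5
    have h6 : Z * Real.log Z ^ 2 ≤ Z * Real.log q ^ 2 := by
      apply mul_le_mul_of_nonneg_left _ (by linarith)
      exact pow_le_pow_left₀ hlZ.le hlZq 2
    have hC0 : 0 < C := by linarith
    calc min (1 / C) (1 / lam) * (Z * Real.log Z ^ 2) ≤ 1 / C * (Z * Real.log Z ^ 2) :=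
          mul_le_mul_of_nonneg_right (min_le_left _ _) hZ2
      _ < q := by
        rw [one_div, inv_mul_lt_iff₀ hC0]
        linarith

theorem logs2 (c₀ : ℝ) (hc₀ : 0 < c₀) : ∃ X₀ : ℕ, ∀ X : ℕ, X₀ ≤ X →
    0 < Real.log X ∧ 0 < Real.log (Real.log X) ∧ 3 ≤ c₀ * Real.log X ^ 2 ∧
    Real.log (Real.log X) ≤ Real.log (c₀ * Real.log X ^ 2) := by
  refine ⟨⌈Real.exp (max 3 (3 / c₀))⌉₊, fun X hX => ?_⟩
  have hX1 : Real.exp (max 3 (3 / c₀)) ≤ X := Nat.ceil_le.1 hX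
  have hL : max 3 (3 / c₀) ≤ Real.log X := by
    rw [← Real.log_exp (max 3 (3 / c₀))]
    exact Real.log_le_log (Real.exp_pos _) hX1
  obtain ⟨L, hLd⟩ : ∃ L : ℝ, L = Real.log X := ⟨_, rfl⟩
  rw [← hLd] at hL ⊢
  have hL3 : 3 ≤ L := (le_max_left _ _).trans hL
  have hLc : 3 ≤ c₀ * L := by
    have h1 : 3 / c₀ ≤ L := (le_max_right _ _).trans hL
    rw [div_le_iff₀ hc₀] at h1
    linarith
  have hl : 1 ≤ Real.log L := by
    rw [Real.le_log_iff_exp_le (by linarith)]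
    have := Real.exp_one_lt_d9
    linarith
  have h1 : L ≤ c₀ * L ^ 2 := by nlinarith
  exact ⟨by linarith, by linarith, by linarith, Real.log_le_log (by linarith) h1⟩

open Classical in
theorem lower (r : ℕ) (hr : 1 ≤ r) (ε : ℝ) (hε : 0 < ε) : ∃ c : ℝ, 0 < c ∧ ∃ X₀ : ℕ, ∀ X : ℕ,
    X₀ ≤ X → ∀ (Y : ℕ) (P : Set ℕ), (∀ q ∈ P, AlmostTwin r q) →
      (Set.ncard {n : ℕ | Y < n ∧ n ≤ Y + X ∧ ∃ p q : ℕ, p + q = n ∧ AlmostTwin r p ∧ q ∈ P ∧
        ((Set.ncard {t : ℕ | t ∈ P ∧ t < q} : ℝ) ≤ c * Real.log X ^ 2 ∨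
          (q : ℝ) ≤ c * (Real.log X ^ 2 * Real.log (Real.log X) ^ 2))} : ℝ) ≤ ε * X := by
  obtain ⟨C, hC, X₁, hX₁, hcov⟩ := at_interval r hr
  obtain ⟨c₀, hc₀d⟩ : ∃ c₀ : ℝ, c₀ = ε / (2 * C) := ⟨_, rfl⟩
  have hc₀ : 0 < c₀ := by rw [hc₀d]; positivity
  obtain ⟨X₂, hlog⟩ := logs2 c₀ hc₀
  obtain ⟨c₁, hc₁, hind⟩ := at_large r hr
  refine ⟨min c₀ (c₁ * c₀), by positivity, max X₁ X₂, fun X hX Y P hP => ?_⟩
  have hXX₁ : X₁ ≤ X := (le_max_left _ _).trans hX
  have hX3 : 3 ≤ X := hX₁.trans hXX₁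
  have hXr : (0 : ℝ) < X := by
    have : (3 : ℝ) ≤ X := by exact_mod_cast hX3
    linarith
  obtain ⟨hL, hl, hB3, hlB⟩ := hlog X ((le_max_right _ _).trans hX)
  obtain ⟨L, hLd⟩ : ∃ L : ℝ, L = Real.log X := ⟨_, rfl⟩
  have hcov' := hcov X hXX₁
  rw [← hLd] at hL hl hB3 hlB hcov' ⊢
  obtain ⟨tb, htb⟩ : ∃ tb : ℕ → Finset ℕ, tb = fun q => (range q).filter (fun t => t ∈ P) := ⟨_, rfl⟩
  have hcount : ∀ q : ℕ, Set.ncard {t : ℕ | t ∈ P ∧ t < q} = (tb q).card := by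
    intro q
    rw [← Set.ncard_coe_finset]
    congr 1
    ext t
    rw [htb, mem_coe, mem_filter, mem_range]
    exact and_comm
  have hmemtb : ∀ q t : ℕ, t ∈ tb q ↔ t < q ∧ t ∈ P := by
    intro q t
    rw [htb, mem_filter, mem_range]
  obtain ⟨S, hS⟩ : ∃ S : Finset ℕ, S = (range (Y + X + 1)).filter (fun q => q ∈ P ∧
    ((tb q).card : ℝ) ≤ c₀ * L ^ 2) := ⟨_, rfl⟩
  have hScard : (S.card : ℝ) ≤ c₀ * L ^ 2 + 1 := by
    have h1 : S.card ≤ (range (⌊c₀ * L ^ 2⌋₊ + 1)).card := by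
      have key : ∀ i j : ℕ, i ∈ P → i < j → (tb i).card < (tb j).card := by
        intro i j hi hij
        apply card_lt_card
        rw [Finset.ssubset_iff_of_subset]
        · refine ⟨i, (hmemtb j i).2 ⟨hij, hi⟩, ?_⟩
          rw [hmemtb]
          rintro ⟨h, -⟩
          omega
        · intro a ha
          rw [hmemtb] at ha ⊢
          exact ⟨by omega, ha.2⟩
      apply card_le_card_of_injOn (fun t => (tb t).card)
      · intro t ht
        rw [mem_coe, hS, mem_filter] at ht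
        rw [mem_coe, mem_range]
        have := Nat.le_floor ht.2.2
        show (tb t).card < ⌊c₀ * L ^ 2⌋₊ + 1
        omega
      · intro t ht t' ht' heq
        rw [mem_coe, hS, mem_filter] at ht ht'
        have heq' : (tb t).card = (tb t').card := heq
        rcases lt_trichotomy t t' with h | h | h
        · have := key t t' ht.2.1 h
          omega
        · exact h
        · have := key t' t ht'.2.1 h
          omega
    rw [card_range] at h1
    have h2 : (S.card : ℝ) ≤ (⌊c₀ * L ^ 2⌋₊ : ℝ) + 1 := by exact_mod_cast h1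
    have h3 := Nat.floor_le (by positivity : 0 ≤ c₀ * L ^ 2)
    linarith
  -- the exceptional integers
  obtain ⟨B, hB⟩ : ∃ B : Finset ℕ, B = S.biUnion (fun m => ((Ioc (Y - m) (Y - m + X)).filter
    (At r)).image (fun k => k + m)) := ⟨_, rfl⟩
  have hBcard : (B.card : ℝ) ≤ ε * X := by
    have h2 : B.card ≤ ∑ m ∈ S, ((Ioc (Y - m) (Y - m + X)).filter (At r)).card := by
      rw [hB]
      exact card_biUnion_le.trans (sum_le_sum fun m _ => card_image_le)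
    have h1 : (B.card : ℝ) ≤ ∑ m ∈ S, (((Ioc (Y - m) (Y - m + X)).filter (At r)).card : ℝ) := by
      exact_mod_cast h2
    have h3 : ∑ m ∈ S, (((Ioc (Y - m) (Y - m + X)).filter (At r)).card : ℝ) ≤
        ∑ m ∈ S, C * ((X : ℝ) / L ^ 2) := sum_le_sum fun m _ => hcov' _
    rw [sum_const, nsmul_eq_mul] at h3
    have h4 : (S.card : ℝ) ≤ 2 * (c₀ * L ^ 2) := by linarith
    calc (B.card : ℝ) ≤ S.card * (C * ((X : ℝ) / L ^ 2)) := h1.trans h3
      _ ≤ 2 * (c₀ * L ^ 2) * (C * ((X : ℝ) / L ^ 2)) := by gcongr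
      _ = (2 * C * c₀) * X := by field_simp
      _ = ε * X := by rw [hc₀d]; field_simp
  have hsub : {n : ℕ | Y < n ∧ n ≤ Y + X ∧ ∃ p q : ℕ, p + q = n ∧ AlmostTwin r p ∧ q ∈ P ∧
        ((Set.ncard {t : ℕ | t ∈ P ∧ t < q} : ℝ) ≤ min c₀ (c₁ * c₀) * L ^ 2 ∨
          (q : ℝ) ≤ min c₀ (c₁ * c₀) * (L ^ 2 * Real.log L ^ 2))} ⊆ (B : Set ℕ) := by
    rintro n ⟨hn1, hn2, p, q, hpq, hp, hq, hcase⟩
    have hqS : q ∈ S := by
      rw [hS, mem_filter, mem_range]
      refine ⟨by omega, hq, ?_⟩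
      have hpos : 0 < L ^ 2 := by positivity
      have hpos3 : 0 < L ^ 2 * Real.log L ^ 2 := by positivity
      rcases hcase with h1 | h1
      · rw [hcount] at h1
        exact h1.trans (mul_le_mul_of_nonneg_right (min_le_left _ _) hpos.le)
      · by_contra hcon
        push Not at hcon
        have h7 := hind q (tb q) (fun t ht => ⟨((hmemtb q t).1 ht).1, hP t ((hmemtb q t).1 ht).2⟩)
          _ hB3 hcon
        have h8 : c₁ * (c₀ * L ^ 2 * Real.log L ^ 2) ≤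
            c₁ * (c₀ * L ^ 2 * Real.log (c₀ * L ^ 2) ^ 2) := by gcongr
        have h9 : min c₀ (c₁ * c₀) * (L ^ 2 * Real.log L ^ 2) ≤
            (c₁ * c₀) * (L ^ 2 * Real.log L ^ 2) :=
          mul_le_mul_of_nonneg_right (min_le_right _ _) hpos3.le
        have h10 : c₁ * (c₀ * L ^ 2 * Real.log L ^ 2) = (c₁ * c₀) * (L ^ 2 * Real.log L ^ 2) := by
          ring
        linarith
    rw [mem_coe, hB, mem_biUnion]
    refine ⟨q, hqS, ?_⟩
    rw [mem_image]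
    refine ⟨p, ?_, hpq⟩
    have := hp.1.two_le
    rw [mem_filter, mem_Ioc]
    exact ⟨⟨by omega, by omega⟩, hp⟩
  have h5 := Set.ncard_le_ncard hsub (Finset.finite_toSet B)
  rw [Set.ncard_coe_finset] at h5
  have h6 : (Set.ncard {n : ℕ | Y < n ∧ n ≤ Y + X ∧ ∃ p q : ℕ, p + q = n ∧ AlmostTwin r p ∧ q ∈ P ∧
        ((Set.ncard {t : ℕ | t ∈ P ∧ t < q} : ℝ) ≤ min c₀ (c₁ * c₀) * L ^ 2 ∨
          (q : ℝ) ≤ min c₀ (c₁ * c₀) * (L ^ 2 * Real.log L ^ 2))} : ℝ) ≤ B.card := by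
    exact_mod_cast h5
  exact h6.trans hBcard

theorem upper : ∃ r : ℕ, 2 ≤ r ∧ ∃ c : ℝ, 0 < c ∧ ∃ X₀ : ℕ, ∀ X : ℕ, X₀ ≤ X →
    c * X ≤ Set.ncard {n : ℕ | X < n ∧ n ≤ 4 * X ∧ Even n ∧ ∃ p q : ℕ, p + q = n ∧
      AlmostTwin r p ∧ AlmostTwin r q ∧
        (q : ℝ) ≤ 12 * (Real.log X ^ 2 * Real.log (Real.log X) ^ 2)} := by
  obtain ⟨r, hr, c, hc, X₀, hs⟩ := sums_pos
  refine ⟨2 * r, by omega, c / 6, by positivity, 6 * X₀ + 100, fun X hX => ?_⟩
  obtain ⟨Z, hZ⟩ : ∃ Z : ℕ, Z = X / 6 + 1 := ⟨_, rfl⟩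
  obtain ⟨Y, hY12, hYL, hYZ, I, hI, hIc⟩ := hs Z (by omega)
  have hZX : Z ≤ X := by omega
  have hZ12 : 12 ≤ Z := by omega
  have hXZ : X ≤ 6 * Z := by omega
  obtain ⟨G, hG⟩ : ∃ G : Set ℕ, G = {n : ℕ | X < n ∧ n ≤ 4 * X ∧ Even n ∧ ∃ p q : ℕ, p + q = n ∧
      AlmostTwin (2 * r) p ∧ AlmostTwin (2 * r) q ∧
        (q : ℝ) ≤ 12 * (Real.log X ^ 2 * Real.log (Real.log X) ^ 2)} := ⟨_, rfl⟩
  rw [← hG]
  have hGfin : G.Finite := by
    rw [hG]
    exact (Set.finite_Iic (4 * X)).subset (fun n hn => hn.2.1)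
  have hZr : (12 : ℝ) ≤ Z := by exact_mod_cast hZ12
  have hZXr : (Z : ℝ) ≤ X := by exact_mod_cast hZX
  have hlZ1 : 1 ≤ Real.log Z := by
    rw [Real.le_log_iff_exp_le (by linarith)]
    have := Real.exp_one_lt_d9
    linarith
  have hlZX : Real.log Z ≤ Real.log X := Real.log_le_log (by linarith) hZXr
  have hllZ : 0 ≤ Real.log (Real.log Z) := Real.log_nonneg hlZ1
  have hllZX : Real.log (Real.log Z) ≤ Real.log (Real.log X) := Real.log_le_log (by linarith) hlZX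
  have hYX : (Y : ℝ) ≤ Real.log X ^ 2 * Real.log (Real.log X) ^ 2 := by
    refine hYL.trans ?_
    apply mul_le_mul (pow_le_pow_left₀ (by linarith) hlZX 2) (pow_le_pow_left₀ hllZ hllZX 2)
    · positivity
    · positivity
  have hsub : ((I.image (fun n => 6 * n - 2) : Finset ℕ) : Set ℕ) ⊆ G := by
    intro N hN
    rw [mem_coe, mem_image] at hN
    obtain ⟨n, hn, rfl⟩ := hN
    obtain ⟨k, m, hkm, hk1, hk2, hkA, hm1, hm2, hmA⟩ := hI n hn
    rw [hG]
    refine ⟨by omega, by omega, ?_, 6 * k - 1, 6 * m - 1, by omega,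
      rough_of_missing r Z k (by omega) hZ12 (by omega) hk2 hkA,
      rough_of_missing r Y m (by omega) hY12 (by omega) hm2 hmA, ?_⟩
    · rw [Nat.even_iff]
      omega
    · have h1 : 6 * m - 1 ≤ 12 * Y := by omega
      have h2 : ((6 * m - 1 : ℕ) : ℝ) ≤ 12 * Y := by exact_mod_cast h1
      linarith
  have h5 := Set.ncard_le_ncard hsub hGfin
  rw [Set.ncard_coe_finset, card_image_of_injOn] at h5
  · have h6 : (I.card : ℝ) ≤ Set.ncard G := by exact_mod_cast h5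
    have h7 : (X : ℝ) ≤ 6 * Z := by exact_mod_cast hXZ
    calc c / 6 * X ≤ c / 6 * (6 * Z) := by gcongr
      _ = c * Z := by ring
      _ ≤ I.card := hIc
      _ ≤ _ := h6
  · intro a ha b hb hab
    obtain ⟨k, m, hkm, hk1, -⟩ := hI a ha
    obtain ⟨k', m', hkm', hk1', -⟩ := hI b hb
    simp only at hab
    omega

/-- **Theorem.** (0) Twin primes are almost twin primes.

(1) For every `ε > 0` there is `c > 0` such that for all large `X`, for every `Y` and every set `P` of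
almost twin primes (for instance the set of all twin primes), at most `ε X` of the integers `n` with
`Y < n ≤ Y + X` have a representation `n = p + q`, `p` an almost twin prime and `q` in `P`, in which
`q` is one of the first `c (log X)²` elements of `P` or `q ≤ c (log X)² (log log X)²`.

(2) For some `r` and `c > 0`, for all large `X` at least `c X` of the even integers `n` with
`X < n ≤ 4 X` have a representation `n = p + q`, `p` and `q` almost twin primes, with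
`q ≤ 12 (log X)² (log log X)²`. -/
theorem result :
    (∀ r p : ℕ, 2 ≤ r → p.Prime → ((p + 2).Prime ∨ (p - 2).Prime) → AlmostTwin r p) ∧
    (∀ r : ℕ, 1 ≤ r → ∀ ε : ℝ, 0 < ε → ∃ c : ℝ, 0 < c ∧ ∃ X₀ : ℕ, ∀ X : ℕ, X₀ ≤ X →
      ∀ (Y : ℕ) (P : Set ℕ), (∀ q ∈ P, AlmostTwin r q) →
      (Set.ncard {n : ℕ | Y < n ∧ n ≤ Y + X ∧ ∃ p q : ℕ, p + q = n ∧ AlmostTwin r p ∧ q ∈ P ∧
        ((Set.ncard {t : ℕ | t ∈ P ∧ t < q} : ℝ) ≤ c * Real.log X ^ 2 ∨
          (q : ℝ) ≤ c * (Real.log X ^ 2 * Real.log (Real.log X) ^ 2))} : ℝ) ≤ ε * X) ∧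
    (∃ r : ℕ, 2 ≤ r ∧ ∃ c : ℝ, 0 < c ∧ ∃ X₀ : ℕ, ∀ X : ℕ, X₀ ≤ X →
      c * X ≤ Set.ncard {n : ℕ | X < n ∧ n ≤ 4 * X ∧ Even n ∧ ∃ p q : ℕ, p + q = n ∧
        AlmostTwin r p ∧ AlmostTwin r q ∧
          (q : ℝ) ≤ 12 * (Real.log X ^ 2 * Real.log (Real.log X) ^ 2)}) :=
  ⟨fun r p hr hp h => twin_at r p hr hp h, fun r hr ε hε => lower r hr ε hε, upper⟩

end Pool.Agent.Results.MP_c6d112_nt.TypicalLeastSummand
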